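import Pool.Agent.Helper49.HO.H1

set_option autoImplicit false

/-!
# Hoermander's theorem for compactly supported functions: the duality argument
-/

namespace Pool.Agent.Helper28.HO

open Pool.Agent.Helper49.HO MeasureTheory Complex
open scoped ComplexConjugate InnerProductSpace

variable {φ κ : ℂ × ℂ → ℝ}

/-- the density -/
noncomputable def dens (φ : ℂ × ℂ → ℝ) (z : ℂ × ℂ) : ENNReal := ENNReal.ofReal (Real.exp (-φ z))

/-- the weighted measure -/
noncomputable def nu (φ : ℂ × ℂ → ℝ) : Measure (ℂ × ℂ) := volume.withDensity (dens φ)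

theorem meas_dens (h : IsWeight φ) : Measurable (dens φ) :=
  ENNReal.measurable_ofReal.comp (Real.continuous_exp.comp h.continuous.neg).measurable

theorem dens_toReal (z : ℂ × ℂ) : (dens φ z).toReal = Real.exp (-φ z) :=
  ENNReal.toReal_ofReal (Real.exp_pos _).le

theorem nu_ac : nu φ ≪ volume := withDensity_absolutelyContinuous _ _

theorem ac_nu (h : IsWeight φ) : volume ≪ nu φ :=
  withDensity_absolutelyContinuous' (meas_dens h).aemeasurable
    (Filter.Eventually.of_forall fun z => by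
      unfold dens
      rw [ENNReal.ofReal_ne_zero_iff]
      exact Real.exp_pos _)

theorem dens_lt (z : ℂ × ℂ) : dens φ z < ⊤ := ENNReal.ofReal_lt_top

theorem int_nu (h : IsWeight φ) (f : ℂ × ℂ → ℂ) : ∫ z, f z ∂(nu φ) = ∫ z, f z * Ew φ z := by
  unfold nu
  rw [integral_withDensity_eq_integral_toReal_smul (meas_dens h)
    (Filter.Eventually.of_forall dens_lt)]
  congr 1
  funext z
  rw [dens_toReal, Ew_eq, Complex.real_smul, mul_comm]

theorem integrable_nu (h : IsWeight φ) (f : ℂ × ℂ → ℝ) :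
    Integrable f (nu φ) ↔ Integrable (fun z => f z * Real.exp (-φ z)) := by
  unfold nu
  rw [integrable_withDensity_iff (meas_dens h) (Filter.Eventually.of_forall dens_lt)]
  simp only [dens_toReal]

theorem memLp_iff (h : IsWeight φ) (f : ℂ × ℂ → ℂ) : MemLp f 2 (nu φ) ↔ InL2 φ f := by
  constructor
  · intro hf
    refine ⟨hf.1.mono_ac (ac_nu h), ?_⟩
    rw [memLp_two_iff_integrable_sq_norm hf.1, integrable_nu h] at hf
    exact hf
  · rintro ⟨h1, h2⟩
    have h3 : AEStronglyMeasurable f (nu φ) := h1.mono_ac nu_ac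
    rw [memLp_two_iff_integrable_sq_norm h3, integrable_nu h]
    exact h2

theorem test_inL2 (h : IsWeight φ) {f : ℂ × ℂ → ℂ} (hf : IsTest f) : InL2 φ f := by
  refine ⟨hf.1.continuous.aestronglyMeasurable, ?_⟩
  refine Continuous.integrable_of_hasCompactSupport ?_ ?_
  · exact (hf.1.continuous.norm.pow 2).mul (Real.continuous_exp.comp h.continuous.neg)
  · exact HasCompactSupport.mul_right (hf.2.comp_left (g := fun x : ℂ => ‖x‖ ^ 2) (by simp))

/-- the Hilbert space -/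
noncomputable abbrev HH (φ : ℂ × ℂ → ℝ) := Lp ℂ 2 (nu φ)

theorem inL2_coe (h : IsWeight φ) (F : HH φ) : InL2 φ F := (memLp_iff h _).1 (Lp.memLp F)

/-- test functions as elements -/
noncomputable def tl (h : IsWeight φ) {f : ℂ × ℂ → ℂ} (hf : IsTest f) : HH φ :=
  ((memLp_iff h f).2 (test_inL2 h hf)).toLp f

theorem tl_ae (h : IsWeight φ) {f : ℂ × ℂ → ℂ} (hf : IsTest f) :
    (tl h hf : ℂ × ℂ → ℂ) =ᵐ[volume] f := (ac_nu h).ae_eq (MemLp.coeFn_toLp _)

theorem inner_eq (h : IsWeight φ) (F G : HH φ) :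
    ⟪F, G⟫_ℂ = ∫ z, G z * conj (F z) * Ew φ z := by
  rw [MeasureTheory.L2.inner_def, int_nu h]
  rfl

theorem inner_tl (h : IsWeight φ) (F : HH φ) {g : ℂ × ℂ → ℂ} (hg : IsTest g) :
    ⟪tl h hg, F⟫_ℂ = ∫ z, F z * conj (g z) * Ew φ z := by
  rw [inner_eq h]
  refine integral_congr_ae ?_
  filter_upwards [tl_ae h hg] with z hz
  rw [hz]

theorem inner_tl_tl (h : IsWeight φ) {f g : ℂ × ℂ → ℂ} (hf : IsTest f) (hg : IsTest g) :
    ⟪tl h hg, tl h hf⟫_ℂ = ∫ z, f z * conj (g z) * Ew φ z := by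
  rw [inner_tl h]
  refine integral_congr_ae ?_
  filter_upwards [tl_ae h hf] with z hz
  rw [hz]

theorem norm_sq_eq (h : IsWeight φ) (F : HH φ) : ‖F‖ ^ 2 = nsq φ F := by
  have h1 := inner_self_eq_norm_sq_to_K (𝕜 := ℂ) F
  rw [inner_eq h, ← nsq_eq] at h1
  have h2 : ((nsq φ F : ℝ) : ℂ) = ((‖F‖ ^ 2 : ℝ) : ℂ) := by
    rw [h1]
    push_cast
    rfl
  exact (Complex.ofReal_injective h2).symm

/-! ### The exponential of the weight -/

/-- `exp φ` -/
noncomputable def Ep (φ : ℂ × ℂ → ℝ) (z : ℂ × ℂ) : ℂ := Complex.exp (cx φ z)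

theorem smooth_Ep (h : IsWeight φ) : Smooth (Ep φ) := h.cx.cexp

theorem Ep_mul_Ew (z : ℂ × ℂ) : Ep φ z * Ew φ z = 1 := by
  unfold Ep Ew
  rw [← Complex.exp_add, add_neg_cancel, Complex.exp_zero]

theorem conj_Ep (z : ℂ × ℂ) : conj (Ep φ z) = Ep φ z := by
  unfold Ep cx
  rw [← Complex.exp_conj, Complex.conj_ofReal]

theorem pd_Ep (h : IsWeight φ) (v z : ℂ × ℂ) : pd v (Ep φ) z = Ep φ z * pd v (cx φ) z :=
  pd_exp v (h.cx.diff z)

theorem pb_Ep (h : IsWeight φ) (v z : ℂ × ℂ) : pb v (Ep φ) z = Ep φ z * pb v (cx φ) z :=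
  pb_exp v (h.cx.diff z)

/-- the twisted conjugate of a test function -/
noncomputable def tw (φ : ℂ × ℂ → ℝ) (ψ : ℂ × ℂ → ℂ) (z : ℂ × ℂ) : ℂ := conj (ψ z) * Ep φ z

theorem test_tw (h : IsWeight φ) {ψ : ℂ × ℂ → ℂ} (hψ : IsTest ψ) : IsTest (tw φ ψ) :=
  hψ.conj.mul_right (smooth_Ep h)

theorem conj_tw (ψ : ℂ × ℂ → ℂ) (z : ℂ × ℂ) : conj (tw φ ψ z) * Ew φ z = ψ z := by
  unfold tw
  rw [map_mul, conj_conj, conj_Ep, mul_assoc, Ep_mul_Ew, mul_one]

theorem Dw_tw (h : IsWeight φ) {ψ : ℂ × ℂ → ℂ} (hψ : IsTest ψ) (v z : ℂ × ℂ) :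
    conj (Dw φ v (tw φ ψ) z) * Ew φ z = pb v ψ z := by
  have h1 : pd v (tw φ ψ) z = conj (ψ z) * pd v (Ep φ) z + Ep φ z * pd v (fun z => conj (ψ z)) z :=
    pd_mul v (hψ.conj.diff z) ((smooth_Ep h).diff z)
  unfold Dw
  rw [h1, pd_Ep h, pd_conj v (hψ.diff z)]
  have h2 : conj (conj (ψ z) * (Ep φ z * pd v (cx φ) z) + Ep φ z * conj (pb v ψ z) -
      pd v (cx φ) z * tw φ ψ z) = Ep φ z * pb v ψ z := by
    unfold tw
    simp only [map_sub, map_add, map_mul, conj_conj, conj_Ep]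
    ring
  rw [h2, mul_right_comm, Ep_mul_Ew, one_mul]

theorem pb_tw (h : IsWeight φ) {ψ : ℂ × ℂ → ℂ} (hψ : IsTest ψ) (v z : ℂ × ℂ) :
    conj (pb v (tw φ ψ) z) * Ew φ z = pd v ψ z + pd v (cx φ) z * ψ z := by
  have h1 : pb v (tw φ ψ) z = conj (ψ z) * pb v (Ep φ) z + Ep φ z * pb v (fun z => conj (ψ z)) z :=
    pb_mul v (hψ.conj.diff z) ((smooth_Ep h).diff z)
  rw [h1, pb_Ep h, pb_conj v (hψ.diff z), pb_cx h]
  simp only [map_add, map_mul, conj_conj, conj_Ep]
  have h2 := Ep_mul_Ew (φ := φ) z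
  linear_combination (ψ z * pd v (cx φ) z + pd v ψ z) * h2

theorem inner_tw (h : IsWeight φ) (F : HH φ) {ψ : ℂ × ℂ → ℂ} (hψ : IsTest ψ) :
    ⟪tl h (test_tw h hψ), F⟫_ℂ = ∫ z, F z * ψ z := by
  rw [inner_tl h]
  congr 1
  funext z
  rw [mul_assoc, conj_tw]

theorem int_inner (h : IsWeight φ) (F G : HH φ) :
    Integrable (fun z => G z * conj (F z) * Ew φ z) := by
  have h1 : Integrable (fun z => ⟪F z, G z⟫_ℂ) (nu φ) := L2.integrable_inner F G
  unfold nu at h1
  rw [integrable_withDensity_iff_integrable_smul' (meas_dens h)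
    (Filter.Eventually.of_forall dens_lt)] at h1
  refine h1.congr (Filter.Eventually.of_forall fun z => ?_)
  change (dens φ z).toReal • ⟪F z, G z⟫_ℂ = G z * conj (F z) * Ew φ z
  rw [dens_toReal, Ew_eq, Complex.real_smul, mul_comm]
  rfl

theorem int_tl (h : IsWeight φ) (F : HH φ) {g : ℂ × ℂ → ℂ} (hg : IsTest g) :
    Integrable (fun z => F z * conj (g z) * Ew φ z) := by
  refine (int_inner h (tl h hg) F).congr ?_
  filter_upwards [tl_ae h hg] with z hz
  rw [hz]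

theorem int_mul (h : IsWeight φ) (F : HH φ) {ψ : ℂ × ℂ → ℂ} (hψ : IsTest ψ) :
    Integrable (fun z => F z * ψ z) := by
  refine (int_tl h F (test_tw h hψ)).congr (Filter.Eventually.of_forall fun z => ?_)
  change F z * conj (tw φ ψ z) * Ew φ z = _
  rw [mul_assoc, conj_tw]

/-! ### The adjoint of `dbar` -/

theorem test_del (h : IsWeight φ) {a b : ℂ × ℂ → ℂ} (ha : IsTest a) (hb : IsTest b) :
    IsTest (del φ a b) := (test_Dw h e1 ha).neg.sub (test_Dw h e2 hb)

theorem del_eq (a b : ℂ × ℂ → ℂ) (z : ℂ × ℂ) :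
    del φ a b z = - Dw φ e1 a z - Dw φ e2 b z := rfl

theorem Dw_add {a b : ℂ × ℂ → ℂ} (ha : IsTest a) (hb : IsTest b) (v z : ℂ × ℂ) :
    Dw φ v (fun z => a z + b z) z = Dw φ v a z + Dw φ v b z := by
  unfold Dw
  rw [pd_add v (ha.diff z) (hb.diff z)]
  ring

theorem pd_cmul {a : ℂ × ℂ → ℂ} (ha : IsTest a) (c : ℂ) (v z : ℂ × ℂ) :
    pd v (fun z => c * a z) z = c * pd v a z := by
  have h1 := pd_mul v (differentiableAt_const (𝕜 := ℝ) (x := z) c) (ha.diff z)
  have h2 : pd v (fun _ : ℂ × ℂ => c) z = 0 := by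
    unfold pd
    rw [fderiv_const_apply]
    simp
  rw [h2, mul_zero, add_zero] at h1
  exact h1

theorem Dw_cmul {a : ℂ × ℂ → ℂ} (ha : IsTest a) (c : ℂ) (v z : ℂ × ℂ) :
    Dw φ v (fun z => c * a z) z = c * Dw φ v a z := by
  unfold Dw
  rw [pd_cmul ha]
  ring

theorem test_cmul {a : ℂ × ℂ → ℂ} (ha : IsTest a) (c : ℂ) : IsTest (fun z => c * a z) :=
  IsTest.mul_left contDiff_const ha

theorem test_zero : IsTest (fun _ => (0 : ℂ)) := ⟨contDiff_const, HasCompactSupport.zero⟩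

/-- the image of the adjoint on test forms -/
noncomputable def TS (h : IsWeight φ) : Submodule ℂ (HH φ) where
  carrier := {x | ∃ a b : ℂ × ℂ → ℂ, ∃ (ha : IsTest a) (hb : IsTest b), x = tl h (test_del h ha hb)}
  add_mem' := by
    rintro _ _ ⟨a, b, ha, hb, rfl⟩ ⟨a', b', ha', hb', rfl⟩
    refine ⟨_, _, ha.add ha', hb.add hb', ?_⟩
    refine Lp.ext ?_
    refine (Lp.coeFn_add _ _).trans ?_
    have h1 := MemLp.coeFn_toLp ((memLp_iff h _).2 (test_inL2 h (test_del h ha hb)))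
    have h2 := MemLp.coeFn_toLp ((memLp_iff h _).2 (test_inL2 h (test_del h ha' hb')))
    have h3 := MemLp.coeFn_toLp ((memLp_iff h _).2 (test_inL2 h
      (test_del h (ha.add ha') (hb.add hb'))))
    filter_upwards [h1, h2, h3] with z h1 h2 h3
    refine Eq.trans (congrArg₂ (· + ·) h1 h2) (Eq.trans ?_ h3.symm)
    rw [del_eq, del_eq, del_eq, Dw_add ha ha', Dw_add hb hb']
    ring
  zero_mem' := by
    refine ⟨_, _, test_zero, test_zero, ?_⟩
    refine Lp.ext ?_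
    refine (Lp.coeFn_zero _ _ _).trans ?_
    have h3 := MemLp.coeFn_toLp ((memLp_iff h _).2 (test_inL2 h (test_del h test_zero test_zero)))
    filter_upwards [h3] with z h3
    refine Eq.trans ?_ h3.symm
    have h4 : ∀ v, Dw φ v (fun _ => (0 : ℂ)) z = 0 := by
      intro v
      unfold Dw pd
      rw [fderiv_const_apply]
      simp
    rw [del_eq, h4, h4]
    simp
  smul_mem' := by
    rintro c _ ⟨a, b, ha, hb, rfl⟩
    refine ⟨_, _, test_cmul ha c, test_cmul hb c, ?_⟩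
    refine Lp.ext ?_
    refine (Lp.coeFn_smul _ _).trans ?_
    have h1 := MemLp.coeFn_toLp ((memLp_iff h _).2 (test_inL2 h (test_del h ha hb)))
    have h3 := MemLp.coeFn_toLp ((memLp_iff h _).2 (test_inL2 h
      (test_del h (test_cmul ha c) (test_cmul hb c))))
    filter_upwards [h1, h3] with z h1 h3
    refine Eq.trans (congrArg (c • ·) h1) (Eq.trans ?_ h3.symm)
    change c * del φ a b z = del φ _ _ z
    rw [del_eq, del_eq, Dw_cmul ha, Dw_cmul hb]
    ring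

/-! ### Closed forms -/

/-- the Hilbert space of forms -/
noncomputable abbrev H2 (φ : ℂ × ℂ → ℝ) := WithLp 2 (HH φ × HH φ)

/-- a pair as a form -/
noncomputable def pr (x y : HH φ) : H2 φ := WithLp.toLp 2 (x, y)

theorem inner_pr (x y : HH φ) (F : H2 φ) : ⟪pr x y, F⟫_ℂ = ⟪x, F.fst⟫_ℂ + ⟪y, F.snd⟫_ℂ := rfl

/-- the test forms orthogonal to the closed forms -/
noncomputable def sψ (h : IsWeight φ) {ψ : ℂ × ℂ → ℂ} (hψ : IsTest ψ) : H2 φ :=
  pr (tl h (test_tw h (hψ.pb e2).neg)) (tl h (test_tw h (hψ.pb e1)))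

theorem inner_sψ (h : IsWeight φ) {ψ : ℂ × ℂ → ℂ} (hψ : IsTest ψ) (F : H2 φ) :
    ⟪sψ h hψ, F⟫_ℂ = ∫ z, (F.snd z * pb e1 ψ z - F.fst z * pb e2 ψ z) := by
  unfold sψ
  rw [inner_pr, inner_tw h _ (hψ.pb e2).neg, inner_tw h _ (hψ.pb e1), add_comm,
    ← integral_add (int_mul h F.snd (hψ.pb e1)) (int_mul h F.fst (hψ.pb e2).neg)]
  congr 1
  funext z
  ring

/-- the closed forms -/
noncomputable def KK (h : IsWeight φ) : Submodule ℂ (H2 φ) :=
  (Submodule.span ℂ {x | ∃ (ψ : ℂ × ℂ → ℂ) (hψ : IsTest ψ), x = sψ h hψ})ᗮ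

theorem mem_KK (h : IsWeight φ) (F : H2 φ) : F ∈ KK h ↔ WeakClosed F.fst F.snd := by
  unfold KK
  rw [Submodule.mem_orthogonal]
  constructor
  · intro hF ψ hψ
    rw [← inner_sψ h hψ]
    exact hF _ (Submodule.subset_span ⟨ψ, hψ, rfl⟩)
  · intro hF x hx
    induction hx using Submodule.span_induction with
    | mem x hx =>
      obtain ⟨ψ, hψ, rfl⟩ := hx
      rw [inner_sψ h hψ]
      exact hF ψ hψ
    | zero => exact inner_zero_left _
    | add x y _ _ hx hy => rw [inner_add_left, hx, hy, add_zero]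
    | smul c x _ hx => rw [inner_smul_left, hx, mul_zero]

/-- `dbar` of a test function -/
noncomputable def dv (h : IsWeight φ) {v : ℂ × ℂ → ℂ} (hv : IsTest v) : H2 φ :=
  pr (tl h (hv.pb e1)) (tl h (hv.pb e2))

theorem dv_mem (h : IsWeight φ) {v : ℂ × ℂ → ℂ} (hv : IsTest v) : dv h hv ∈ KK h := by
  rw [mem_KK]
  intro ψ hψ
  have h1 : ∫ z, ((dv h hv).snd z * pb e1 ψ z - (dv h hv).fst z * pb e2 ψ z) =
      ∫ z, (pb e2 v z * pb e1 ψ z - pb e1 v z * pb e2 ψ z) := by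
    refine integral_congr_ae ?_
    filter_upwards [tl_ae h (hv.pb e1), tl_ae h (hv.pb e2)] with z h1 h2
    change (tl h (hv.pb e2) : ℂ × ℂ → ℂ) z * _ - (tl h (hv.pb e1) : ℂ × ℂ → ℂ) z * _ = _
    rw [h1, h2]
  rw [h1, integral_sub ((hv.pb e2).mul_right (hψ.pb e1).smooth).integrable
    ((hv.pb e1).mul_right (hψ.pb e2).smooth).integrable, ibp_pb (hv.pb e2) hψ.smooth,
    ibp_pb (hv.pb e1) hψ.smooth]
  simp only [pb_pb_comm hv.smooth e1 e2]
  ring

theorem inner_dv (h : IsWeight φ) {v : ℂ × ℂ → ℂ} (hv : IsTest v) (F : H2 φ) :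
    ⟪dv h hv, F⟫_ℂ = ∫ z, (F.fst z * conj (pb e1 v z) + F.snd z * conj (pb e2 v z)) * Ew φ z := by
  unfold dv
  rw [inner_pr, inner_tl, inner_tl,
    ← integral_add (int_tl h F.fst (hv.pb e1)) (int_tl h F.snd (hv.pb e2))]
  congr 1
  funext z
  ring

/-- adjointness on test forms -/
theorem inner_dv_pr (h : IsWeight φ) {v a b : ℂ × ℂ → ℂ} (hv : IsTest v) (ha : IsTest a)
    (hb : IsTest b) : ⟪dv h hv, pr (tl h ha) (tl h hb)⟫_ℂ = ⟪tl h hv, tl h (test_del h ha hb)⟫_ℂ := by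
  change ⟪tl h (hv.pb e1), tl h ha⟫_ℂ + ⟪tl h (hv.pb e2), tl h hb⟫_ℂ = _
  rw [inner_tl_tl, inner_tl_tl, inner_tl_tl]
  have h1 := adj2 h e1 ha.smooth hv
  have h2 := adj2 h e2 hb.smooth hv
  have h3 : (fun z => del φ a b z * conj (v z) * Ew φ z) = fun z =>
      -(Dw φ e1 a z * conj (v z) * Ew φ z) - Dw φ e2 b z * conj (v z) * Ew φ z := by
    funext z
    rw [del_eq]
    ring
  have i1 : ∀ {w a : ℂ × ℂ → ℂ}, IsTest a → IsTest w →
      Integrable (fun z => a z * conj (w z) * Ew φ z) := fun ha hw =>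
    ((ha.mul_right hw.smooth.conj).mul_right (smooth_Ew h)).integrable
  have i2 : Integrable (fun z => -(Dw φ e1 a z * conj (v z) * Ew φ z)) :=
    (i1 (test_Dw h e1 ha) hv).neg
  rw [h3, integral_sub i2 (i1 (test_Dw h e2 hb) hv), integral_neg, h1, h2]
  ring

/-- the projection of a test form to the closed forms satisfies the hypotheses of H2 -/
theorem proj_bound (h2 : S_H2) (hw : HWeight φ κ) {a b : ℂ × ℂ → ℂ} (ha : IsTest a)
    (hb : IsTest b) : ∃ F : H2 φ, (∀ G ∈ KK hw.smooth, ⟪G, F⟫_ℂ =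
        ⟪G, pr (tl hw.smooth ha) (tl hw.smooth hb)⟫_ℂ) ∧
      (∫ z, κ z * (‖F.fst z‖ ^ 2 + ‖F.snd z‖ ^ 2) * Real.exp (-φ z)) ≤
        ‖tl hw.smooth (test_del hw.smooth ha hb)‖ ^ 2 := by
  have h := hw.smooth
  have hc : IsClosed ((KK h : Submodule ℂ (H2 φ)) : Set (H2 φ)) := Submodule.isClosed_orthogonal _
  have hcs : CompleteSpace (KK h) := hc.completeSpace_coe
  have hK : (KK h).HasOrthogonalProjection := Submodule.HasOrthogonalProjection.ofCompleteSpace _
  set F := (KK h).starProjection (pr (tl h ha) (tl h hb)) with hF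
  have hG : ∀ G ∈ KK h, ⟪G, F⟫_ℂ = ⟪G, pr (tl h ha) (tl h hb)⟫_ℂ := by
    intro G hG
    have h1 := Submodule.sub_starProjection_mem_orthogonal (K := KK h) (pr (tl h ha) (tl h hb))
    have h3 := (Submodule.mem_orthogonal _ _).1 h1 G hG
    rw [inner_sub_right, sub_eq_zero] at h3
    exact h3.symm
  refine ⟨F, hG, ?_⟩
  have hFK : F ∈ KK h := Submodule.starProjection_apply_mem _ _
  have hg : IsTest (del φ a b) := test_del h ha hb
  have h4 : nsq φ (del φ a b) = ‖tl h hg‖ ^ 2 := by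
    rw [norm_sq_eq h]
    unfold nsq
    refine integral_congr_ae ?_
    filter_upwards [tl_ae h hg] with z hz
    rw [hz]
  refine (h2 φ κ hw F.fst F.snd (del φ a b) (inL2_coe h _) (inL2_coe h _) (test_inL2 h hg)
    ((mem_KK h F).1 hFK) ?_).trans h4.le
  intro ψ hψ
  have h5 := hG _ (dv_mem h (test_tw h hψ))
  rw [inner_dv_pr h (test_tw h hψ) ha hb, inner_tl_tl, inner_dv] at h5
  have e1 : (fun z => (F.fst z * conj (pb e1 (tw φ ψ) z) + F.snd z * conj (pb e2 (tw φ ψ) z)) *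
      Ew φ z) = fun z => F.fst z * (pd e1 ψ z + pd e1 (cx φ) z * ψ z) +
        F.snd z * (pd e2 ψ z + pd e2 (cx φ) z * ψ z) := by
    funext z
    rw [← pb_tw h hψ, ← pb_tw h hψ]
    ring
  have e2 : (fun z => del φ a b z * conj (tw φ ψ z) * Ew φ z) = fun z => del φ a b z * ψ z := by
    funext z
    rw [mul_assoc, conj_tw]
  rw [e1, e2] at h5
  exact h5

theorem int_kappa (hw : HWeight φ κ) (F G : HH φ) :
    Integrable (fun z => κ z * (‖F z‖ ^ 2 + ‖G z‖ ^ 2) * Real.exp (-φ z)) := by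
  obtain ⟨C, hC⟩ := hw.bdd
  have h1 := (inL2_coe hw.smooth F).2
  have h2 := (inL2_coe hw.smooth G).2
  have h3 := (h1.add h2).bdd_mul (c := C) hw.cont.aestronglyMeasurable
    (Filter.Eventually.of_forall fun z => by
      rw [Real.norm_of_nonneg (hw.pos z).le]
      exact hC z)
  refine h3.congr (Filter.Eventually.of_forall fun z => ?_)
  simp only [Pi.add_apply]
  ring

theorem int_kinv (hw : HWeight φ κ) {u : ℂ × ℂ → ℂ} (hu : IsTest u) :
    Integrable (fun z => (‖pb e1 u z‖ ^ 2 + ‖pb e2 u z‖ ^ 2) / κ z * Real.exp (-φ z)) := by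
  refine Continuous.integrable_of_hasCompactSupport ?_ ?_
  · refine Continuous.mul (Continuous.div ?_ hw.cont fun z => (hw.pos z).ne')
      (Real.continuous_exp.comp hw.smooth.continuous.neg)
    exact ((hu.pb e1).1.continuous.norm.pow 2).add ((hu.pb e2).1.continuous.norm.pow 2)
  · refine HasCompactSupport.intro' hu.2.isCompact (isClosed_tsupport u) ?_
    intro z hz
    rw [pb_zero_of_notMem e1 hz, pb_zero_of_notMem e2 hz]
    simp

theorem bound (h2 : S_H2) (hw : HWeight φ κ) {u a b : ℂ × ℂ → ℂ} (hu : IsTest u) (ha : IsTest a)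
    (hb : IsTest b) : (⟪tl hw.smooth hu, tl hw.smooth (test_del hw.smooth ha hb)⟫_ℂ).re ≤
      (1 / 2) * ‖tl hw.smooth (test_del hw.smooth ha hb)‖ ^ 2 +
      (1 / 2) * ∫ z, (‖pb e1 u z‖ ^ 2 + ‖pb e2 u z‖ ^ 2) / κ z * Real.exp (-φ z) := by
  have h := hw.smooth
  obtain ⟨F, hF1, hF2⟩ := proj_bound h2 hw ha hb
  rw [← inner_dv_pr h hu ha hb, ← hF1 _ (dv_mem h hu), inner_dv]
  refine (Complex.re_le_norm _).trans ?_
  have i1 := int_kappa hw F.fst F.snd
  have i2 := int_kinv hw hu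
  refine (norm_integral_le_of_norm_le ((i1.const_mul (1 / 2)).add (i2.const_mul (1 / 2)))
    (Filter.Eventually.of_forall fun z => ?_)).trans ?_
  · have hk := hw.pos z
    have he := Real.exp_pos (-φ z)
    have h4 : ‖(F.fst z * conj (pb e1 u z) + F.snd z * conj (pb e2 u z)) * Ew φ z‖ ≤
        (‖F.fst z‖ * ‖pb e1 u z‖ + ‖F.snd z‖ * ‖pb e2 u z‖) * Real.exp (-φ z) := by
      rw [norm_mul, Ew_eq, Complex.norm_real, Real.norm_of_nonneg he.le]
      refine mul_le_mul_of_nonneg_right ?_ he.le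
      refine (norm_add_le _ _).trans ?_
      rw [norm_mul, norm_mul, RCLike.norm_conj, RCLike.norm_conj]
    refine h4.trans ?_
    change _ ≤ 1 / 2 * (κ z * (‖F.fst z‖ ^ 2 + ‖F.snd z‖ ^ 2) * Real.exp (-φ z)) +
      1 / 2 * ((‖pb e1 u z‖ ^ 2 + ‖pb e2 u z‖ ^ 2) / κ z * Real.exp (-φ z))
    have h5 : ∀ x y : ℝ, x * y ≤ 1 / 2 * (κ z * x ^ 2) + 1 / 2 * (y ^ 2 / κ z) := by
      intro x y
      have h6 : 0 ≤ (κ z * x - y) ^ 2 / κ z := by positivity
      have h7 : (κ z * x - y) ^ 2 / κ z = κ z * x ^ 2 - 2 * (x * y) + y ^ 2 / κ z := by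
        field_simp
        ring
      rw [h7] at h6
      linarith
    have h6 := h5 ‖F.fst z‖ ‖pb e1 u z‖
    have h7 := h5 ‖F.snd z‖ ‖pb e2 u z‖
    have h8 := mul_le_mul_of_nonneg_right (add_le_add h6 h7) he.le
    refine h8.trans (le_of_eq ?_)
    ring
  · refine (le_of_eq (integral_add (i1.const_mul (1 / 2)) (i2.const_mul (1 / 2)))).trans ?_
    rw [integral_const_mul, integral_const_mul]
    linarith

theorem h3 (h2 : S_H2) : S_H3 := by
  intro φ κ hw u hu
  have h := hw.smooth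
  have hc : IsClosed (((TS h).topologicalClosure : Submodule ℂ (HH φ)) : Set (HH φ)) :=
    Submodule.isClosed_topologicalClosure _
  have hcs : CompleteSpace (TS h).topologicalClosure := hc.completeSpace_coe
  have hK : (TS h).topologicalClosure.HasOrthogonalProjection :=
    Submodule.HasOrthogonalProjection.ofCompleteSpace _
  set w : HH φ := (TS h).topologicalClosure.starProjection (tl h hu) with hwdef
  have hwm : w ∈ (TS h).topologicalClosure := Submodule.starProjection_apply_mem _ _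
  have horth : ∀ x ∈ TS h, ⟪x, tl h hu - w⟫_ℂ = 0 := fun x hx =>
    (Submodule.mem_orthogonal _ _).1
      (Submodule.sub_starProjection_mem_orthogonal (K := (TS h).topologicalClosure) (tl h hu)) x
      (Submodule.le_topologicalClosure _ hx)
  set C : ℝ := ∫ z, (‖pb e1 u z‖ ^ 2 + ‖pb e2 u z‖ ^ 2) / κ z * Real.exp (-φ z) with hC
  refine ⟨(tl h hu - w : HH φ), inL2_coe h _, ?_, ?_⟩
  · intro ψ hψ
    have key : ∀ (a b : ℂ × ℂ → ℂ) (ha : IsTest a) (hb : IsTest b) (χ : ℂ × ℂ → ℂ),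
        (∀ z, conj (del φ a b z) * Ew φ z = - χ z) →
        ∫ z, (tl h hu - w : HH φ) z * χ z = 0 := by
      intro a b ha hb χ hχ
      have h4 := horth (tl h (test_del h ha hb)) ⟨a, b, ha, hb, rfl⟩
      rw [inner_tl] at h4
      have h5 : (fun z => (tl h hu - w : HH φ) z * conj (del φ a b z) * Ew φ z) =
          fun z => -((tl h hu - w : HH φ) z * χ z) := by
        funext z
        rw [mul_assoc, hχ]
        ring
      rw [h5, integral_neg, neg_eq_zero] at h4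
      exact h4
    have hD0 : ∀ v z, Dw φ v (fun _ => (0 : ℂ)) z = 0 := by
      intro v z
      unfold Dw pd
      rw [fderiv_const_apply]
      simp
    constructor
    · refine key (tw φ ψ) (fun _ => 0) (test_tw h hψ) test_zero _ fun z => ?_
      rw [del_eq, hD0, sub_zero, map_neg, neg_mul, Dw_tw h hψ]
    · refine key (fun _ => 0) (tw φ ψ) test_zero (test_tw h hψ) _ fun z => ?_
      rw [del_eq, hD0, neg_zero, zero_sub, map_neg, neg_mul, Dw_tw h hψ]
  · have h4 : nsq φ (fun z => u z - (tl h hu - w : HH φ) z) = ‖w‖ ^ 2 := by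
      rw [norm_sq_eq h]
      unfold nsq
      refine integral_congr_ae ?_
      filter_upwards [tl_ae h hu, (ac_nu h).ae_eq (Lp.coeFn_sub (tl h hu) w)] with z h5 h6
      rw [h6, Pi.sub_apply, h5, sub_sub_cancel]
    rw [h4]
    have h5 : ∀ x ∈ (TS h).topologicalClosure, (⟪w, x⟫_ℂ).re ≤ 1 / 2 * ‖x‖ ^ 2 + 1 / 2 * C := by
      intro x hx
      have hcl : IsClosed {x : HH φ | (⟪w, x⟫_ℂ).re ≤ 1 / 2 * ‖x‖ ^ 2 + 1 / 2 * C} :=
        isClosed_le (Complex.continuous_re.comp (continuous_const.inner continuous_id))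
          ((continuous_const.mul (continuous_norm.pow 2)).add continuous_const)
      refine closure_minimal (s := (TS h : Set (HH φ))) ?_ hcl hx
      rintro _ ⟨a, b, ha, hb, rfl⟩
      have h6 := horth (tl h (test_del h ha hb)) ⟨a, b, ha, hb, rfl⟩
      have h7 : ⟪w, tl h (test_del h ha hb)⟫_ℂ = ⟪tl h hu, tl h (test_del h ha hb)⟫_ℂ := by
        rw [inner_sub_right, sub_eq_zero] at h6
        rw [← inner_conj_symm w, ← inner_conj_symm (tl h hu), h6]
      change (⟪w, tl h (test_del h ha hb)⟫_ℂ).re ≤ _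
      rw [h7]
      exact bound h2 hw hu ha hb
    have h6 := h5 w hwm
    have h7 : (⟪w, w⟫_ℂ).re = ‖w‖ ^ 2 := by
      have := inner_self_eq_norm_sq (𝕜 := ℂ) w
      exact this
    rw [h7] at h6
    linarith

end Pool.Agent.Helper28.HO
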